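import Pool.Agent.H882.RtBuild

/-!
# MP_e573c6_ag: the Zilber-Pink conjecture for 100% of the rational translates, with independent
denominators, of a curve in `Y(1)^n`

`Y(1)^n` is identified with `ℂ^n` by the elliptic modular function `jj = j = E₄³ / Δ`.

**The curves.** Let `C ⊂ ℂ^n` be an algebraic curve over `ℚ̄` (of any genus and any degrees, irreducible or
not) such that no two coordinates have a common pole: no point of the closure of `C` in `(ℙ^1)^n` has two
coordinates `∞`. Equivalently, for all `i ≠ j` the coordinates of the points of `C` satisfy an
equation

  `∑_v lead_v y_i^a y_j^v + ∑_(u < a, v ≤ b) e_(u,v) y_i^u y_j^v = 0`,  `lead_b ≠ 0`,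

(if `(a, b)` is the bidegree of the projection of `C` to the `(i,j)`-plane, the coefficient of `y_i^a y_j^b`
vanishes exactly if `(∞, ∞)` is a point of the closure; a constant coordinate is allowed). The roots of
`∑_v lead_v Y^v` are the values of `y_j` at the poles of `y_i`: so the numbers `lead` describe the points of
`C` at infinity. `Boundary` collects `a, b, lead` for all pairs `(i, j)` and a number `den`, and
`B.IsCurve C` says that `C` satisfies such equations, with numbers `e_(u,v)` such that `den e_(u,v)` is an
algebraic integer. So every curve `C` as above satisfies `B.IsCurve C` for some `B`, and for a given `B` we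
get infinite families of curves with unbounded heights, for example `y_i = f_i (z) + λ_i g_i (z)`, where `f_i`
are given rational functions over `ℚ̄` with disjoint sets of poles, `g_i` has poles only at the poles of `f_i`, of
smaller orders, and vanishes at the poles of the other `f_j` to a high order, and the `λ_i` are arbitrary
algebraic integers.

**Theorem** (`result`). For each `n` there is a set `N ⊂ ℚ^n` of density zero (`DensityZero`: the number of
the `s ∈ N` whose coordinates have numerators and denominators of absolute value `≤ H` is `o (H^(2 n))`,
while the number of all such `s ∈ ℚ^n` is `≫ H^(2 n)`), such that for each `B` there is `T` with the following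
property. For all `s ∈ ℚ^n`, `s ∉ N`, such that one of the numerators or denominators of the coordinates is
`≥ T`, and for all `C` with `B.IsCurve C`, the translate `s + C` has no atypical intersection
(`NoAtypical`).

Here `NoAtypical Y` says that for each point `y` of `Y ∩ Z`, `Z` special of dimension `r`, each family of
coordinates of `y` which is algebraically independent over `ℚ` has at most `1 + r - n` elements. So

* no point of `s + C` is contained in a special subvariety of dimension `≤ n - 2`: `atyp (s + C)` is empty
  (this includes the transcendental points);
* no irreducible curve `V ⊂ s + C` is contained in a proper special subvariety: the generic point of `V` has a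
  transcendental coordinate, so `n + 1 ≤ 1 + r`.

Therefore Q1 is true for `V`, with `atyp (V)` empty, for 100% of the rational translates `V` of every curve in
general position at infinity, and the exceptional set `N` of translates is the same for all curves.

For `n ≥ 3` Q1 is known for curves in `Y(1)^n` over `ℚ̄` only under strong conditions on the curve: for asymmetric curves
(Habegger, Pila) and for curves whose closure contains a point of the boundary all of whose coordinates are `∞` or singular
moduli (Daw, Orr), or other special boundary points. These conditions concern the degrees or
the points at infinity of the curve. The degrees are the same for all translates of a curve and arbitrary here; and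
for 100% of the `s` no point of the boundary of `s + C` is special.

**Relation to earlier results.** The library theorem `MP_d83ecd_ag.RationalTranslates` is about translates
by the vectors `s = c / t` with one common denominator `t` (100% of the `H^(n+1)` vectors with `|c_i|, t ≤ H`) and
subvarieties of any dimension; it uses the primes `p` which divide `t`, at which all the coordinates of a point of the
translate are large and of the same absolute value, and the orders of the numbers `c_i / c_j` modulo `p`. Its
hypothesis is not satisfied for vectors `s` whose denominators are coprime. Here all `s` with numerators and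
denominators `≤ H` are considered (`≫ H^(2 n)` vectors). For almost all of them the greatest common divisors of the
denominators of two coordinates have only small prime factors, and a large prime divides the
denominator of at most one coordinate. So only one coordinate tends to the cusp at such a place, and the cusps give no
information about the others. The library theorems on partial degenerations (`MP_d83ecd_ag.PartialDegeneration`,
`MP_130685_nt.PartialDegenerations`) need places at which any four coordinates, or each coordinate at more than half
of the places, tend to the cusp at the same time. The library theorem `MP_130685_nt.PolarTranslates` treats the translates of a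
curve all whose coordinates have a common pole by one rational number. `MP_d83ecd_ag.IntegralCentres`,
`MP_d83ecd_ag.FixedCentres` and the other results of the same author are about families of varieties which
degenerate, the homothetic images `s + t V` for a number `t` divisible by primes that are large for `V`;
`MP_e573c6_ag.PowerSaving` is about `t → 0` `p`-adically, too. There is no homothety here, and nothing is assumed
about the reductions of `C`.

The new points: at a prime `p` which divides the denominator of `s_l` only, at most one coordinate of a point of `C`
is not integral, and then all the others are near to the finitely many values of the coordinates at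
infinity. By Chebotarev's theorem there are many `p` (the sum of the reciprocals is divergent) for which these
algebraic numbers `β` have residues in `𝔽_p`, and so `s_j + β` has a canonical lift; only
`O (p^(1/2+ε))` canonical lifts are isogenous to a given one.

**Idea of the proof.** Let `p` divide the denominator of `s_l` and of no other `s_j`. Extend a `p`-adic absolute
value to `ℂ`. Let `x = s + y`, `y ∈ C`. (a) If all `y_j` are integral, `x_l` is not integral, and the other `x_j` are. So
`x_l` is not a singular modulus and not isogenous to any other `x_j`. (b) Otherwise exactly one `y_k` is not
integral, and the `x_j`, `j ≠ k`, are either not integral (`j = l`) or near to `s_j + β_j`, `β_j` one of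
finitely many algebraic numbers with residues in `𝔽_p`. If the residue classes of the
`s_j + β` are ordinary and pairwise not isogenous for all possible `β` (this fails only for `O (p^(n-1/2+ε))` of the
`p^n` residue classes of numerators), the `x_j` with `j ≠ k` are pairwise not isogenous, and `x_j`, `j ≠ l`, can be a
singular modulus only if it is isogenous to the canonical lift of `s_j + β` for one of the `β`. We use two primes
`p, p'` for each `l`, such that these canonical lifts for `p` and `p'` are not isogenous. If some `x_l` is a
singular modulus, (b) holds for both primes with `k = l`, and the other `x_j` are pairwise not isogenous and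
not singular moduli. If there is no such `l`, use (a) for all `l`, or (b) for one `l`. So there are always `n - 1`
coordinates which are not singular moduli and pairwise not isogenous, and the dimension of `Z` is at least
`n - 1`. If a coordinate `y_w` is transcendental, there are extensions of the absolute value such that `y_w` is near
to an arbitrary integer, and therefore all `y_j` are integral; so (a) for all `l` gives `r = n`. Finally 100% of the
`s ∈ ℚ^n` have two such primes for each `l` (a sieve), and the exceptional sets for the countably many
`B` are contained in one set of density zero up to finite sets.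
-/

set_option autoImplicit false

namespace Pool.Agent.Results.MP_e573c6_ag.IndependentDenominators

open UpperHalfPlane H294ZP

/-- A special subvariety of dimension `r` of `Y(1)^n`: a map `cls` from the coordinates onto `r`
classes (`none` for the constant coordinates), an integral matrix of positive determinant for each
coordinate, and a CM point for each coordinate. -/
structure SpecialVariety (n r : ℕ) where
  cls : Fin n → Option (Fin r)
  surj : ∀ l : Fin r, ∃ i, cls i = some l
  mat : Fin n → Matrix (Fin 2) (Fin 2) ℤ
  det_pos : ∀ i, 0 < (mat i).det
  cm : Fin n → ℍ
  isCM : ∀ i, IsCM (cm i)

/-- The points of a special subvariety: the constant coordinates are the singular moduli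
`j (cm i)`, the other coordinates are `j (g_i z_l)`, where `l` is the class of `i`, `g_i = mat i` and
`z_1, …, z_r` are free parameters in the upper half plane. -/
def SpecialVariety.locus {n r : ℕ} (Z : SpecialVariety n r) : Set (Fin n → ℂ) :=
  {x | ∃ z : Fin r → ℍ, ∀ i, (Z.cls i = none → x i = jj (Z.cm i)) ∧
    ∀ l, Z.cls i = some l → ∃ w : ℍ,
      (w : ℂ) * (Z.mat i 1 0 * z l + Z.mat i 1 1) = Z.mat i 0 0 * z l + Z.mat i 0 1 ∧ x i = jj w}

/-- For each special subvariety `Z` of dimension `r`, and each point `y` of `Y ∩ Z`: families of
coordinates which are algebraically independent over `ℚ` have at most `1 + r - n` elements (in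
particular there is no such point if `r ≤ n - 2`). -/
def NoAtypical {n : ℕ} (Y : Set (Fin n → ℂ)) : Prop :=
  ∀ (r : ℕ) (Z : SpecialVariety n r), ∀ y ∈ Y, y ∈ Z.locus →
    ∀ W : Finset (Fin n), AlgebraicIndependent ℚ (fun i : W => y i) → n + W.card ≤ 1 + r

/-- The points at infinity of a curve, the degrees, and a common denominator. -/
structure Boundary (n : ℕ) where
  a : Fin n → Fin n → ℕ
  b : Fin n → Fin n → ℕ
  lead : Fin n → Fin n → ℕ → ℂ
  den : ℕ
  isAlgebraic : ∀ i j v, IsAlgebraic ℚ (lead i j v)
  lead_ne_zero : ∀ i j, i ≠ j → lead i j (b i j) ≠ 0
  den_ne_zero : den ≠ 0

/-- `C` satisfies equations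
`∑_(v ≤ b) lead_v y_i^a y_j^v + ∑_(u < a, v ≤ b) e_(u,v) y_i^u y_j^v = 0` for all `i ≠ j`, where the numbers
`den e_(u,v)` are algebraic integers. -/
def Boundary.IsCurve {n : ℕ} (B : Boundary n) (C : Set (Fin n → ℂ)) : Prop :=
  ∀ i j, i ≠ j → ∃ e : ℕ → ℕ → ℂ, (∀ u v, IsIntegral ℤ ((B.den : ℂ) * e u v)) ∧ ∀ y ∈ C,
    ∑ v ∈ Finset.range (B.b i j + 1), B.lead i j v * y i ^ B.a i j * y j ^ v +
      ∑ u ∈ Finset.range (B.a i j), ∑ v ∈ Finset.range (B.b i j + 1),
        e u v * y i ^ u * y j ^ v = 0

/-- The translate `s + C`. -/
def translate {n : ℕ} (s : Fin n → ℚ) (C : Set (Fin n → ℂ)) : Set (Fin n → ℂ) :=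
  {x | (fun i => x i - (s i : ℂ)) ∈ C}

/-- `N` has density zero in `ℚ^n`, ordered by the height. -/
def DensityZero {n : ℕ} (N : Set (Fin n → ℚ)) : Prop :=
  ∀ ε : ℝ, 0 < ε → ∃ H₀ : ℕ, ∀ H : ℕ, H₀ ≤ H →
    ({s | s ∈ N ∧ ∀ i, |(s i).num| ≤ (H : ℤ) ∧ (s i).den ≤ H}.ncard : ℝ) ≤ ε * (H : ℝ) ^ (2 * n)

/-- The theorem. -/
theorem result (n : ℕ) : ∃ N : Set (Fin n → ℚ), DensityZero N ∧
    ∀ B : Boundary n, ∃ T : ℕ, ∀ s : Fin n → ℚ, s ∉ N →
      (∃ i, (T : ℤ) ≤ |(s i).num| ∨ T ≤ (s i).den) →
      ∀ C : Set (Fin n → ℂ), B.IsCurve C → NoAtypical (translate s C) := by
  obtain ⟨N, hN, hmain⟩ := Pool.Agent.H882.rt_main n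
  refine ⟨N, hN, fun B => ?_⟩
  obtain ⟨T, hT⟩ := hmain B.a B.b B.lead B.den B.isAlgebraic B.lead_ne_zero B.den_ne_zero
  refine ⟨T, fun s hs hsT C hC r Z y hy hyZ W hW => ?_⟩
  exact hT s hs hsT C hC y hy r ⟨Z.cls, Z.surj, Z.mat, Z.det_pos, Z.cm, Z.isCM⟩ hyZ W hW

end Pool.Agent.Results.MP_e573c6_ag.IndependentDenominators
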