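import Pool.Agent.H882.PsRes
import Pool.Agent.H882.PmLoc

/-!
# MP_e573c6_ag: Zilber-Pink for curves which degenerate to unions of coordinate lines through integral
points: one prime number is enough, and a power saving for the exceptions

**The curves.** Let `F ⊂ ℂ` be a countable field, and `X_(δ,t,λ) ⊂ ℂ^n` a family of sets of dimension `m`, over
`F`, with parameters `δ ∈ ℤ^N`, `t ∈ ℕ`, `λ ∈ ℂ^q` (`Family`, `Family.member`), which degenerates for `t = 0` to
the union of the `m`-dimensional coordinate subspaces: for every set `J` of `m + 1` coordinates there is an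
equation

  `lead_J (δ) ∏_(i ∈ J) x_i ^ e_(J,i) + t rest_J (δ, t, λ, x) = 0`

with polynomials over `F`, `lead_J ≠ 0`, and `rest_J` of degree at most `e_(J,i)` in `x_i` (and so independent of
the `x_i`, `i ∉ J`). For this problem `m = 1`. Examples are
* the curves `x_i x_j = t (a_ij + b_ij x_i + c_ij x_j + d_ij x_i x_j)` with arbitrary algebraic integers
  `λ = (a_ij, b_ij, c_ij, d_ij)` (if this is a curve), and the homothetic images `t λ C` of the curves `C`
  in general position at infinity, `λ` an algebraic integer;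
* for an arbitrary curve (or subvariety) `V ⊂ ℂ^n` over `F` the images of `V` under the Möbius transformations
  `v_i ↦ t λ_i / (v_i - δ_i)`: if `P_J (v_j, j ∈ J) = 0` is an equation for `V`, the equation is
  `∏ x_i ^ e_(J,i) P_J (δ_i + t λ_i / x_i) = 0`, with `lead_J = P_J (δ)`.

For `s ∈ ℤ^n` let `s + X_(δ,t,λ)` be the translate, and let `Y` be its image (`image`) under the map
`(R_1, …, R_n) : ℂ^n ⇢ ℂ^n = Y(1)^n` with nonconstant rational functions `R_i = num_i / den_i` over `ℚ`, for
example `R_i = T`, or the `j`-invariant `R_i = 256 (T² - T + 1)³ / (T (T - 1))²` of the Legendre curve, so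
that one has curves in the Shimura variety `Y(2)^n`, a covering of `Y(1)^n`. `Y(1)^n` is identified with `ℂ^n`
by `jj = j = E₄³ / Δ`.

**Theorem.** (A) For all sufficiently large prime numbers `p` there is a set `S_p` of
`O (p ^ (n + N - 1/2 + ε))` of the `p ^ (n + N)` residue classes of the parameters `(s, δ)` modulo `p` with the
following property. Let `t` be a multiple of `p`, and `(s, δ) mod p ∉ S_p`. Then there are singular moduli
`γ_1, …, γ_n` such that for **all** algebraic integers `λ_i` and for all subvarieties `V` of dimension `m` of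
`Y` all atypical subvarieties of `V` are contained in the union of the `n` hyperplanes `y_i = γ_i`. For
`m = 1`, and all curves `C ⊂ Y` on which no coordinate is constant,

  **`atyp (C)` is finite, and `|atyp (C)| ≤ ∑_i #{y ∈ C : y_i = γ_i} ≤ ∑_i deg (y_i |_C)`**.

So Zilber-Pink for `C` holds with a bound which depends only on the degrees.

(B) This is true for all but `O (H ^ (n + N + 1/2 + ε))` of the `≫ H ^ (n + N + 1)` parameters
`(s, δ, t) ∈ ℤ^n × ℤ^N × ℕ` with `|s_i|, |δ_i|, t ≤ H`.

In the Lean statement: `NoAtypicalOutside F m γ Y` means that for each special subvariety `Z` and each point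
`y` of `Y ∩ Z` with `y_i ≠ γ_i` for all `i` the sets of coordinates of `y` which are algebraically
independent over `F` have at most `m + dim Z - n` elements. A component of `V ∩ Z` which is not contained
in the hyperplanes has a point outside of them which is generic over the algebraic closure of `F`
(extended by the `λ_i`, which are algebraic), so that its dimension is at most `m + dim Z - n`. In
particular all points of `V` on special subvarieties of codimension larger than `m` lie on the
hyperplanes `y_i = γ_i`, so that Pink's form of the conjecture holds for `V` (these points are not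
Zariski dense in `V`, if `V` is not contained in a hyperplane `y_i = γ_i`).

**Relation to earlier results.** In our results `MP_d83ecd_ag.IntegralCentres`,
`MP_eeb1a4_ag.DegeneratingFamilies`, `MP_130685_nt.MonicPullbacks` the set of atypical intersections is
empty, but this is shown only for `t` with many suitable large prime divisors, i.e. for one hundred
percent of the parameters without any rate (the set of the exceptions is shown to have density zero,
and this method cannot give more than powers of `log log H / log H`). Here one prime divisor of `t` is enough,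
for residue classes which are almost everything, the exceptions are fewer by the factor `H ^ (1/2 - ε)`,
and one has a uniform bound for the number of atypical points. The library results for curves
(`FourPlaces`, `OneDegenerateHypersurface`, `UniformTranslates`, `MembersInCubes`, …) use places near to the
cusps.

**Idea of the proof.** Let `p` divide `t`. For all embeddings of `ℂ` into `ℂ_p` for which the coefficients
and `lead_J (δ)` are units, all points of `X` have at most `m` coordinates with `|x_i| ^ (p - 1) ≥ |p|`. The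
other coordinates `y_i = R_i (s_i + x_i)` are near to integers `s'_i ≡ R_i (s_i)`. The class of `s'` modulo
`p` is exceptional if one of the elliptic curves with `j`-invariants `s'_i` is supersingular or has
`j = 0, 1728`, or if two of them have the same trace of Frobenius up to the sign; these are
`O (p ^ (n - 1/2 + ε))` classes by the bound for class numbers (and Kronecker's congruence instead of
Deuring's theorem). Otherwise coordinates near to the `s'_i` cannot be isogenous, and are singular moduli
only if they are the canonical lifts `γ_i` (module `CoreWAll`). For (B) one has to count the parameters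
which are exceptional for all large prime divisors of `t`; with `t = b² u`, `u` squarefree, they are
`≪ H ^ (n + N) u ^ (-1/2 + ε)` for each `t` (module `PsCount`).
-/

set_option autoImplicit false

namespace Pool.Agent.Results.MP_e573c6_ag.PowerSaving

open UpperHalfPlane H294ZP Polynomial

/-- A special subvariety of dimension `r` of `Y(1)^n`: a map `cls` from the coordinates onto `r`
classes (`none` for the constant coordinates), an integral matrix of positive determinant for each
coordinate, and a CM point for each coordinate. -/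
structure SpecialVariety (n r : ℕ) where
  cls : Fin n → Option (Fin r)
  surj : ∀ l : Fin r, ∃ i, cls i = some l
  mat : Fin n → Matrix (Fin 2) (Fin 2) ℤ
  det_pos : ∀ i, 0 < (mat i).det
  cm : Fin n → ℍ
  isCM : ∀ i, IsCM (cm i)

/-- The points of a special subvariety: the constant coordinates are the singular moduli
`j (cm i)`, the other coordinates are `j (g_i z_l)`, where `l` is the class of `i`, `g_i = mat i` and
`z_1, …, z_r` are free parameters in the upper half plane. -/
def SpecialVariety.locus {n r : ℕ} (Z : SpecialVariety n r) : Set (Fin n → ℂ) :=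
  {x | ∃ z : Fin r → ℍ, ∀ i, (Z.cls i = none → x i = jj (Z.cm i)) ∧
    ∀ l, Z.cls i = some l → ∃ w : ℍ,
      (w : ℂ) * (Z.mat i 1 0 * z l + Z.mat i 1 1) = Z.mat i 0 0 * z l + Z.mat i 0 1 ∧ x i = jj w}

/-- For each special subvariety `Z` of dimension `r`, and each point `y` of `Y ∩ Z` outside the
hyperplanes `y_i = γ_i`: families of coordinates which are algebraically independent over `F` have at
most `m + r - n` elements. -/
def NoAtypicalOutside {n : ℕ} (F : Subfield ℂ) (m : ℕ) (γ : Fin n → ℂ) (Y : Set (Fin n → ℂ)) : Prop :=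
  ∀ (r : ℕ) (Z : SpecialVariety n r), ∀ y ∈ Y, y ∈ Z.locus → (∀ i, y i ≠ γ i) →
    ∀ W : Finset (Fin n), AlgebraicIndependent F (fun i : W => y i) → n + W.card ≤ m + r

/-- The points of `C` on special subvarieties of codimension at least two. -/
def atyp {n : ℕ} (C : Set (Fin n → ℂ)) : Set (Fin n → ℂ) :=
  {y | y ∈ C ∧ ∃ (r : ℕ) (Z : SpecialVariety n r), r + 2 ≤ n ∧ y ∈ Z.locus}

/-- If `C` is a subset of `Y` with finitely many points on the hyperplanes `y_i = γ_i` (for example an
irreducible curve in `Y` on which no coordinate is constant), then `atyp C` is finite, and its number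
of elements is at most the number of these points. -/
def FinitelyMany {n : ℕ} (γ : Fin n → ℂ) (Y : Set (Fin n → ℂ)) : Prop :=
  ∀ C ⊆ Y, (∀ i, {y | y ∈ C ∧ y i = γ i}.Finite) →
    (atyp C).Finite ∧ (atyp C).ncard ≤ ∑ i, {y | y ∈ C ∧ y i = γ i}.ncard

/-- A family of subsets of `ℂ^n` of dimension `m` with parameters `δ ∈ ℤ^N`, `t ∈ ℕ`, `λ ∈ ℂ^q`, which
degenerates to the union of the coordinate subspaces of dimension `m` for `t = 0`:
for each set `J` of `m + 1` coordinates there is an equation
`lead_J (δ) ∏_(i ∈ J) x_i ^ (expo_J i) + t rest_J (δ, t, λ, x) = 0` with polynomials over `F`,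
`lead_J ≠ 0`, and `rest_J` of degree at most `expo_J i` in `x_i`. -/
structure Family (F : Subfield ℂ) (n N q m : ℕ) where
  expo : Finset (Fin n) → Fin n → ℕ
  lead : Finset (Fin n) → MvPolynomial (Fin N) F
  rest : Finset (Fin n) → MvPolynomial ((Fin N ⊕ Fin 1) ⊕ (Fin q ⊕ Fin n)) F
  expo_eq_zero : ∀ J i, i ∉ J → expo J i = 0
  lead_ne_zero : ∀ J, lead J ≠ 0
  degree_le : ∀ J i, (rest J).degreeOf (Sum.inr (Sum.inr i)) ≤ expo J i

/-- The member of the family with the parameters `δ, t, λ`. -/
def Family.member {F : Subfield ℂ} {n N q m : ℕ} (X : Family F n N q m) (δ : Fin N → ℤ)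
    (t : ℕ) (lam : Fin q → ℂ) : Set (Fin n → ℂ) :=
  {x | ∀ J : Finset (Fin n), J.card = m + 1 →
    MvPolynomial.aeval (fun i => (δ i : ℂ)) (X.lead J) * ∏ i, x i ^ X.expo J i +
      (t : ℂ) * MvPolynomial.aeval (Sum.elim (Sum.elim (fun i => (δ i : ℂ))
        (fun _ => (t : ℂ))) (Sum.elim lam x)) (X.rest J) = 0}

/-- The numerator and the denominator of a rational function are linearly independent, that is, the
rational function is not constant. -/
def Nonconstant (a b : ℤ[X]) : Prop :=
  ∀ c d : ℤ, Polynomial.C c * a = Polynomial.C d * b → c = 0 ∧ d = 0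

/-- The image of the translate `s + X` under the rational functions `R_i = num_i / den_i`. -/
def image {n : ℕ} (num den : Fin n → ℤ[X]) (s : Fin n → ℤ) (X : Set (Fin n → ℂ)) :
    Set (Fin n → ℂ) :=
  {y | ∃ x ∈ X, ∀ i, aeval ((s i : ℂ) + x i) (den i) ≠ 0 ∧
    y i * aeval ((s i : ℂ) + x i) (den i) = aeval ((s i : ℂ) + x i) (num i)}

/-- There are singular moduli `γ_1, …, γ_n` such that for all algebraic integers `λ_i` the images `Y` of
`s + X_(δ,t,λ)` have no atypical intersections outside the hyperplanes `y_i = γ_i`. -/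
def Good {F : Subfield ℂ} {n N q m : ℕ} (X : Family F n N q m) (num den : Fin n → ℤ[X])
    (s : Fin n → ℤ) (δ : Fin N → ℤ) (t : ℕ) : Prop :=
  ∃ γ : Fin n → ℂ, (∀ i, ∃ τ : ℍ, IsCM τ ∧ γ i = jj τ) ∧
    ∀ lam : Fin q → ℂ, (∀ i, IsIntegral ℤ (lam i)) →
      NoAtypicalOutside F m γ (image num den s (X.member δ t lam)) ∧
      (m = 1 → FinitelyMany γ (image num den s (X.member δ t lam)))

open Pool.Agent.H882 Pool.Agent.Y226

theorem finitelyMany_of {n : ℕ} {F : Subfield ℂ} {γ : Fin n → ℂ} {Y : Set (Fin n → ℂ)}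
    (h : NoAtypicalOutside F 1 γ Y) : FinitelyMany γ Y := by
  intro C hC hfin
  have hsub : atyp C ⊆ ⋃ i, {y | y ∈ C ∧ y i = γ i} := by
    rintro y ⟨hy, r, Z, hr, hyZ⟩
    by_contra hno
    have h1 : ∀ i, y i ≠ γ i := fun i hi => hno (Set.mem_iUnion.2 ⟨i, hy, hi⟩)
    have h2 := h r Z y (hC hy) hyZ h1 ∅ (by
      have : IsEmpty ((∅ : Finset (Fin n)) : Type) := ⟨fun x => absurd x.2 (Finset.notMem_empty _)⟩
      rw [algebraicIndependent_empty_type_iff]
      exact (algebraMap F ℂ).injective)
    rw [Finset.card_empty] at h2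
    omega
  have hf : (⋃ i, {y | y ∈ C ∧ y i = γ i}).Finite := Set.finite_iUnion hfin
  refine ⟨hf.subset hsub, (Set.ncard_le_ncard hsub hf).trans ?_⟩
  have h3 := Finset.set_ncard_biUnion_le Finset.univ fun i => {y | y ∈ C ∧ y i = γ i}
  simpa using h3

/-- The theorem. -/
theorem result (n N q : ℕ) (F : Subfield ℂ) [Countable F] (m : ℕ) (X : Family F n N q m)
    (num den : Fin n → ℤ[X]) (hR : ∀ i, Nonconstant (num i) (den i)) :
    (∃ (B : ℕ) (S : ∀ p : ℕ, Set ((Fin n → ZMod p) × (Fin N → ZMod p))),
      (∀ ε : ℝ, 0 < ε → ∃ C : ℝ, ∀ p : ℕ, p.Prime → B < p →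
        ((S p).ncard : ℝ) ≤ C * (p : ℝ) ^ ((n : ℝ) + N - 1 / 2 + ε)) ∧
      ∀ p : ℕ, p.Prime → B < p → ∀ (s : Fin n → ℤ) (δ : Fin N → ℤ) (t : ℕ), 0 < t → p ∣ t →
        ((fun i => (s i : ZMod p)), fun i => (δ i : ZMod p)) ∉ S p → Good X num den s δ t) ∧
    ∀ ε : ℝ, 0 < ε → ∃ C : ℝ, ∀ H : ℕ, 0 < H →
      ({a : (Fin n → ℤ) × (Fin N → ℤ) × ℕ | (∀ i, |a.1 i| ≤ (H : ℤ)) ∧
        (∀ i, |a.2.1 i| ≤ (H : ℤ)) ∧ 0 < a.2.2 ∧ a.2.2 ≤ H ∧
        ¬ Good X num den a.1 a.2.1 a.2.2}.ncard : ℝ) ≤ C * (H : ℝ) ^ ((n : ℝ) + N + 1 / 2 + ε) := by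
  classical
  obtain ⟨E, Γ, hE, hΓ, hΓ2, hcore⟩ := core_all_w n
  let σ : Fin n → Fin (n + N) := Fin.castAdd N
  have hσ : Function.Injective σ := Fin.castAdd_injective n N
  have hinjF : Function.Injective (algebraMap F ℂ) := (algebraMap F ℂ).injective
  -- the unit conditions
  let Ql : Finset (Fin n) → MvPolynomial (Fin (n + N)) ℂ := fun J =>
    MvPolynomial.map (algebraMap F ℂ) (MvPolynomial.rename (Fin.natAdd n) (X.lead J))
  let Q : Finset (MvPolynomial (Fin (n + N)) ℂ) := Finset.univ.image Ql
  have hQ0 : ∀ q ∈ Q, q ≠ 0 := by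
    intro q hq
    obtain ⟨J, -, rfl⟩ := Finset.mem_image.1 hq
    intro h
    have h1 : MvPolynomial.rename (Fin.natAdd n) (X.lead J) = 0 :=
      MvPolynomial.map_injective _ hinjF (by rw [map_zero]; exact h)
    exact X.lead_ne_zero J
      (MvPolynomial.rename_injective _ (Fin.natAdd_injective N n) (by rw [h1, map_zero]))
  have hQF : ∀ q ∈ Q, ∀ v, q.coeff v ∈ F := by
    intro q hq v
    obtain ⟨J, -, rfl⟩ := Finset.mem_image.1 hq
    show (MvPolynomial.map (algebraMap F ℂ)
      (MvPolynomial.rename (Fin.natAdd n) (X.lead J))).coeff v ∈ F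
    rw [MvPolynomial.coeff_map]
    exact Subtype.property _
  -- the coefficients
  let S : Finset ℂ := Finset.univ.biUnion fun J : Finset (Fin n) =>
      (X.rest J).support.image fun v => (((X.rest J).coeff v : F) : ℂ)
  have hne : ∀ c : F, c ≠ 0 → (c : ℂ) ≠ 0 := fun c hc h => hc (Subtype.ext h)
  have hS0 : ∀ b ∈ S, b ≠ 0 := by
    intro b hb
    obtain ⟨J, -, hJ⟩ := Finset.mem_biUnion.1 hb
    obtain ⟨v, hv, rfl⟩ := Finset.mem_image.1 hJ
    exact hne _ (MvPolynomial.mem_support_iff.1 hv)
  have hSF : ∀ b ∈ S, b ∈ F := by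
    intro b hb
    obtain ⟨J, -, hJ⟩ := Finset.mem_biUnion.1 hb
    obtain ⟨v, hv, rfl⟩ := Finset.mem_image.1 hJ
    exact Subtype.property _
  obtain ⟨B, K, hloc⟩ := fm_prime (n := n) (F := F) Cardinal.mk_le_aleph0 Q hQ0 hQF S hS0 hSF
  choose Br hBr using fun i => rr_fib (a := num i) (b := den i) (hR i)
  obtain ⟨B₁, hB₁⟩ : ∃ B₁ : ℕ, B₁ = B + 3 + ∑ i, Br i := ⟨_, rfl⟩
  have hBrle : ∀ i, Br i ≤ B₁ := fun i => by
    have := Finset.single_le_sum (f := Br) (fun _ _ => Nat.zero_le _) (Finset.mem_univ i)
    omega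
  obtain ⟨c, hc⟩ : ∃ c : ℕ, ∀ i, 2 * (max (num i).natDegree (den i).natDegree) ≤ c :=
    ⟨∑ i, 2 * (max (num i).natDegree (den i).natDegree), fun i => Finset.single_le_sum
      (f := fun i => 2 * (max (num i).natDegree (den i).natDegree))
      (fun _ _ => Nat.zero_le _) (Finset.mem_univ i)⟩
  have hfib : ∀ p, p.Prime → B₁ < p → ∀ i (β : ZMod p),
      {x | rr p (num i) (den i) x = β}.ncard ≤ c := fun p hp hlt i β =>
    ((hBr i p hp (lt_of_le_of_lt (hBrle i) hlt)).1 β).trans (hc i)
  have hfib0 : ∀ p, p.Prime → B₁ < p → ∀ i,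
      {x : ZMod p | ((den i).map (Int.castRingHom (ZMod p))).eval x = 0}.ncard ≤ c :=
    fun p hp hlt i => by
      have h1 := (hBr i p hp (lt_of_le_of_lt (hBrle i) hlt)).2
      have h2 := hc i
      omega
  have hex : ∀ p : ℕ, ∃ Bd : Set (Fin (n + N) → ZMod p), p.Prime → B₁ < p →
      Bd.ncard ≤ K * p ^ (n + N - 1) ∧ (n + N = 0 → Bd = ∅) ∧
        LocF n (n + N) p (E p) (Γ p) F Q S Bd := by
    intro p
    by_cases h : p.Prime ∧ B₁ < p
    · obtain ⟨Bd, hBd⟩ := hloc p h.1 (by omega) (E p) (Γ p) (hcore p h.1 (by omega))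
      exact ⟨Bd, fun _ _ => hBd⟩
    · exact ⟨∅, fun h1 h2 => absurd ⟨h1, h2⟩ h⟩
  choose Bd hBd using hex
  let EE : ∀ p : ℕ, Set (Fin (n + N) → ZMod p) := fun p => EF p σ num den (E p) (Bd p)
  have hEE := ps_EF (K := K) (B₀ := B₁) hσ (a := num) (b := den) E Bd hE hfib hfib0
    (fun p hp hlt => ⟨(hBd p hp hlt).1, (hBd p hp hlt).2.1⟩)
  obtain ⟨B₃, hB₃⟩ : ∃ B₃ : ℕ, B₃ = B₁ + (∑ J, ∑ i, X.expo J i) + 1 := ⟨_, rfl⟩
  -- a CM point
  have hcm : ∃ τ : ℍ, IsCM τ := by
    refine ⟨UpperHalfPlane.I, 1, 0, 1, one_ne_zero, ?_⟩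
    simp
  obtain ⟨τ₀, hτ₀⟩ := hcm
  -- the main statement
  have hmain : ∀ p : ℕ, p.Prime → B₃ < p → ∀ (s : Fin n → ℤ) (δ : Fin N → ℤ) (t : ℕ), 0 < t →
      p ∣ t → red p (Fin.append s δ) ∉ EE p → Good X num den s δ t := by
    intro p p1' hlt s δ t ht p4 p6
    have : Fact p.Prime := ⟨p1'⟩
    have p6' : ¬ (red p (Fin.append s δ) ∈ Bd p ∨
        (fun i => rr p (num i) (den i) (red p (Fin.append s δ) (σ i))) ∈ E p ∨
        ∃ i, ((den i).map (Int.castRingHom (ZMod p))).eval (red p (Fin.append s δ) (σ i)) = 0) := p6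
    rw [not_or, not_or] at p6'
    obtain ⟨p7, p8, p9⟩ := p6'
    push Not at p9
    have hpB : B₁ < p := by omega
    have hp3 : 3 < p := by omega
    have hσs : ∀ (a : Fin n), red p (Fin.append s δ) (σ a) = (s a : ZMod p) := by
      intro a
      show ((Fin.append s δ (Fin.castAdd N a) : ℤ) : ZMod p) = _
      rw [Fin.append_left]
    -- the hyperplanes
    have hγ : ∀ i, ∃ γ : ℂ, (∃ τ : ℍ, IsCM τ ∧ γ = jj τ) ∧
        ∀ z ∈ Γ p (rr p (num i) (den i) (red p (Fin.append s δ) (σ i))), z = γ := by
      intro i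
      by_cases h : ∃ z, z ∈ Γ p (rr p (num i) (den i) (red p (Fin.append s δ) (σ i)))
      · obtain ⟨z, hz⟩ := h
        obtain ⟨h1, h2⟩ := hΓ p (rr p (num i) (den i) (red p (Fin.append s δ) (σ i)))
        obtain ⟨τ, hτ, hjτ⟩ := h2 z hz
        exact ⟨z, ⟨τ, hτ, hjτ.symm⟩, fun z' hz' => h1 hz' hz⟩
      · exact ⟨jj τ₀, ⟨τ₀, hτ₀, rfl⟩, fun z hz => absurd ⟨z, hz⟩ h⟩
    choose γ hγ1 hγ2 using hγ
    refine ⟨γ, hγ1, fun lam hlam => ?_⟩
    have hNA : NoAtypicalOutside F m γ (image num den s (X.member δ t lam)) := by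
      intro r Z y hy hyZ hyγ W hind
      obtain ⟨x, hx, hx1⟩ := hy
      have hyΓ : ∀ i, y i ∉ Γ p (rr p (num i) (den i) (red p (Fin.append s δ) (σ i))) :=
        fun i hi => hyγ i (hγ2 i _ hi)
      obtain ⟨C', i1, i2, i3, i4, i5, φ₀, hpC, hCC, hL⟩ := (hBd p p1' hpB).2.2
      have hp1 : ‖(p : C')‖ < 1 := by
        rw [hpC]
        exact inv_lt_one_of_one_lt₀ (by exact_mod_cast p1'.one_lt)
      have hp0 : 0 < ‖(p : C')‖ := by
        rw [hpC]
        exact inv_pos.2 (by exact_mod_cast p1'.pos)
      -- the centre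
      obtain ⟨s', hs'⟩ : ∃ s' : Fin n → ℤ, ∀ i, (s' i : ZMod p) =
          rr p (num i) (den i) (red p (Fin.append s δ) (σ i)) :=
        ⟨fun i => ((rr p (num i) (den i) (red p (Fin.append s δ) (σ i))).val : ℤ), fun i => by
          push_cast
          rw [ZMod.natCast_zmod_val]⟩
      have hevZ : ∀ (g : ℤ[X]) (a : Fin n), (g.map (Int.castRingHom (ZMod p))).eval
          (red p (Fin.append s δ) (σ a)) = ((g.eval (s a) : ℤ) : ZMod p) := by
        intro g a
        rw [hσs, Polynomial.eval_intCast_map]
        rfl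
      have hden : ∀ a : Fin n, ¬ (p : ℤ) ∣ (den a).eval (s a) := by
        intro a hd
        apply p9 a
        rw [hevZ]
        exact (ZMod.intCast_zmod_eq_zero_iff_dvd _ _).2 hd
      have hnum : ∀ a : Fin n, (p : ℤ) ∣ (num a).eval (s a) - s' a * (den a).eval (s a) := by
        intro a
        rw [← ZMod.intCast_zmod_eq_zero_iff_dvd]
        push_cast
        rw [hs', ← hevZ, ← hevZ]
        unfold rr
        rw [mul_assoc, inv_mul_cancel₀ (p9 a), mul_one, sub_self]
      refine pure_local p1' φ₀ hpC hCC (F := F) (m := m) y (fun {ι} _ y' hy' a => ?_)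
        ⟨Z.cls, Z.surj, Z.mat, Z.det_pos, Z.cm, Z.isCM⟩ hyZ W hind
      obtain ⟨Φ, g1, g2, g3, g4⟩ := hL (Fin.append s δ) p7 y' hy' a
      refine ⟨Φ, g1, g2, Finset.univ.filter fun i => ¬ ‖Φ (x i)‖ ^ (p - 1) < ‖(p : C')‖,
        s', ?_, ?_, fun i => ?_, fun i hi => ?_⟩
      · by_contra hcard
        rw [not_le] at hcard
        obtain ⟨J, hJ1, hJ2⟩ := Finset.exists_subset_card_eq (Nat.succ_le_of_lt hcard)
        have hmem := hx J hJ2
        have key : ∃ i ∈ J, ‖Φ (x i)‖ ^ (p - 1) < ‖(p : C')‖ := by
          refine one_J (p := p) (M := 1) hp1 hp0 Φ J (X.expo J) (X.expo_eq_zero J)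
            (MvPolynomial.aeval (fun i => (δ i : ℂ)) (X.lead J)) ?_
            (MvPolynomial.map (algebraMap F ℂ) (X.rest J)) ?_ ?_ δ (fun _ => t) lam
            (fun i => norm_le_one_of_isIntegral Φ (hlam i)) x (t : ℂ) ?_ ?_ ?_
          · have h1 := g4 (Ql J) (Finset.mem_image_of_mem _ (Finset.mem_univ J))
            have e1 : MvPolynomial.eval (fun i => ((Fin.append s δ i : ℤ) : ℂ)) (Ql J) =
                MvPolynomial.aeval (fun i => (δ i : ℂ)) (X.lead J) := by
              show MvPolynomial.eval _ (MvPolynomial.map _ (MvPolynomial.rename _ _)) = _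
              rw [MvPolynomial.eval_map, ← MvPolynomial.aeval_def, MvPolynomial.aeval_rename]
              have e0 : (fun i => ((Fin.append s δ i : ℤ) : ℂ)) ∘ Fin.natAdd n =
                  fun i => (δ i : ℂ) := by
                funext i
                show ((Fin.append s δ (Fin.natAdd n i) : ℤ) : ℂ) = _
                rw [Fin.append_right]
              rw [e0]
            rw [e1] at h1
            exact h1
          · intro v hv
            rw [MvPolynomial.coeff_map]
            refine (g3 _ (Finset.mem_biUnion.2 ⟨J, Finset.mem_univ J,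
              Finset.mem_image.2 ⟨v, ?_, rfl⟩⟩)).le
            exact MvPolynomial.support_map_subset _ _ hv
          · intro i
            rw [MvPolynomial.degreeOf_le_iff]
            intro v hv
            exact (MvPolynomial.monomial_le_degreeOf _
              (MvPolynomial.support_map_subset _ _ hv)).trans (X.degree_le J i)
          · obtain ⟨c', hc'⟩ := p4
            rw [hc', map_natCast]
            push_cast
            rw [norm_mul]
            refine mul_le_of_le_one_right (norm_nonneg _) ?_
            simpa using IsUltrametricDist.norm_intCast_le_one C' (c' : ℤ)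
          · rw [MvPolynomial.eval_map, ← MvPolynomial.aeval_def]
            exact hmem
          · have h1 : ∑ i, X.expo J i ≤ ∑ J, ∑ i, X.expo J i :=
              Finset.single_le_sum (f := fun J => ∑ i, X.expo J i) (fun _ _ => Nat.zero_le _)
                (Finset.mem_univ J)
            omega
        obtain ⟨i, hi, hi'⟩ := key
        exact (Finset.mem_filter.1 (hJ1 hi)).2 hi'
      · intro hE'
        apply p8
        have e1 : (fun i => rr p (num i) (den i) (red p (Fin.append s δ) (σ i))) =
            fun i => (s' i : ZMod p) := funext fun i => (hs' i).symm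
        rw [e1]
        exact hE'
      · rw [hs']
        exact hyΓ i
      · have hi' : ‖Φ (x i)‖ ^ (p - 1) < ‖(p : C')‖ := by
          by_contra h1
          exact hi (Finset.mem_filter.2 ⟨Finset.mem_univ _, h1⟩)
        exact R_near p1' hp3 hp1 hp0 (num i) (den i) (s i) (s' i) (hden i) (hnum i) Φ hi' (by
          have h1 := (hx1 i).2
          rw [← Polynomial.eval_map_algebraMap, ← Polynomial.eval_map_algebraMap] at h1
          exact h1)
    refine ⟨hNA, fun hm => ?_⟩
    subst hm
    exact finitelyMany_of hNA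
  refine ⟨⟨B₃, fun p => {ab | Fin.append ab.1 ab.2 ∈ EE p}, fun ε hε => ?_,
    fun p hp hlt s δ t ht hdvd hS => hmain p hp hlt s δ t ht hdvd fun h => hS ?_⟩, fun ε hε => ?_⟩
  · obtain ⟨C, hC⟩ := hEE ε hε
    refine ⟨C, fun p hp hlt => ?_⟩
    have : NeZero p := ⟨hp.ne_zero⟩
    have h1 := hC p hp (by omega)
    push_cast at h1
    refine le_trans ?_ h1
    refine Nat.cast_le.2 (Set.ncard_le_ncard_of_injOn (fun ab => Fin.append ab.1 ab.2)
      (fun ab hab => hab) ?_ (Set.toFinite _))
    rintro ⟨a, b⟩ - ⟨a', b'⟩ - hab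
    have hab' : Fin.append a b = Fin.append a' b' := hab
    have e1 : a = a' := by
      funext i
      have := congrFun hab' (Fin.castAdd N i)
      rwa [Fin.append_left, Fin.append_left] at this
    have e2 : b = b' := by
      funext i
      have := congrFun hab' (Fin.natAdd n i)
      rwa [Fin.append_right, Fin.append_right] at this
    rw [e1, e2]
  · show Fin.append (fun i => (s i : ZMod p)) (fun i => (δ i : ZMod p)) ∈ EE p
    have e : Fin.append (fun i => (s i : ZMod p)) (fun i => (δ i : ZMod p)) =
        red p (Fin.append s δ) := by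
      funext i
      refine Fin.addCases (fun i => ?_) (fun i => ?_) i
      · rw [Fin.append_left]
        show _ = ((Fin.append s δ (Fin.castAdd N i) : ℤ) : ZMod p)
        rw [Fin.append_left]
      · rw [Fin.append_right]
        show _ = ((Fin.append s δ (Fin.natAdd n i) : ℤ) : ZMod p)
        rw [Fin.append_right]
    rw [e]
    exact h
  · obtain ⟨C, hC⟩ := count_ps (n + N) B₃ EE (fun ε' hε' => by
      obtain ⟨C, hC⟩ := hEE ε' hε'
      exact ⟨C, fun p hp hlt => hC p hp (by omega)⟩) ε hε
    refine ⟨C, fun H hH => ?_⟩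
    obtain ⟨hfin, h1⟩ := hC H hH
    push_cast at h1
    refine le_trans (Nat.cast_le.2 (Set.ncard_le_ncard_of_injOn
      (fun a => (Fin.append a.1 a.2.1, a.2.2)) ?_ ?_ hfin)) h1
    · rintro ⟨s, δ, t⟩ ⟨h2, h3, h4, h5, h6⟩
      refine ⟨fun i => ?_, h4, h5, fun p hp hlt hdvd => ?_⟩
      · refine Fin.addCases (fun i => ?_) (fun i => ?_) i
        · show |Fin.append s δ (Fin.castAdd N i)| ≤ (H : ℤ)
          rw [Fin.append_left]
          exact h2 i
        · show |Fin.append s δ (Fin.natAdd n i)| ≤ (H : ℤ)
          rw [Fin.append_right]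
          exact h3 i
      · by_contra hno
        exact h6 (hmain p hp hlt s δ t h4 hdvd hno)
    · rintro ⟨s, δ, t⟩ - ⟨s', δ', t'⟩ - hab
      rw [Prod.mk.injEq] at hab
      obtain ⟨ha, hb⟩ := hab
      have ha' : Fin.append s δ = Fin.append s' δ' := ha
      have hb' : t = t' := hb
      have e1 : s = s' := by
        funext i
        have := congrFun ha' (Fin.castAdd N i)
        rwa [Fin.append_left, Fin.append_left] at this
      have e2 : δ = δ' := by
        funext i
        have := congrFun ha' (Fin.natAdd n i)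
        rwa [Fin.append_right, Fin.append_right] at this
      rw [e1, e2, hb']

end Pool.Agent.Results.MP_e573c6_ag.PowerSaving
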